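import Pool.Agent.N92.PO.Main

/-!
# Difference sets with Singer parameters: the orders are values of polynomials

`HasSingerDifferenceSet n m`: some finite group (not assumed abelian) contains a difference set with the
Singer parameters of `(n, m)`. `Liftable n m`: there is one which lifts, as the classical Singer difference
sets do, to a relative difference set in a finite group with a normal Sylow 2-subgroup (for example in a
nilpotent group). Conjecturally `n` is then a prime power.

The starting results count the orders: they bound the number of the orders `n ≤ X`, or of those with a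
given number of prime factors, and say nothing about sparse sequences of orders, such as `n = t ^ 2 + 1`
or `n = t ^ 3 + 2`. Here the orders are `n = f(t) ^ i`, where `f` is a polynomial with integral
coefficients. Clearly `f` has to be assumed not to be a constant times a square of a polynomial. (For
squares no local exclusion is known.) In other words, an irreducible polynomial `g` of positive degree
divides `f` to an odd power. This is `Admissible f`; there is no other condition: `f` can have any degree,
it can be reducible and it can have fixed divisors.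

**Theorem.** There is ONE set `E` of natural numbers, of natural density zero, such that for ALL admissible
polynomials `f` and ALL odd `i`:

* for all `K`, for all but finitely many `t ∉ E`, if `n = f(t) ≥ 2`, then no finite group contains a
  difference set with the Singer parameters of `(n ^ i, m)`, whatever the odd number `m ≥ 3` with least
  prime factor at most `K` is (so for `m = 3` there is no planar difference set of order `f(t) ^ i`);
* for all but finitely many `t ∉ E`, if `n = f(t) ≥ 2`, then no difference set with the Singer parameters of
  `(n ^ i, m)` is liftable, whatever the even number `m ≥ 4` is.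

Proof. Let `l` be a prime factor of the odd number `m`. If `q` is a prime modulo which `n` has the order
`i l`, and if a prime `r` which is not a square modulo `q` divides `n` to an odd power, then there is no
difference set with the Singer parameters of `(n ^ i, m)` (`Lander.no_difference_set` of the starting
library). If `m` is even, then the same is true for liftable sets and a prime `q` which divides
`n - 1` (`Pool.Agent.R116.AF.exO_lift`). In the first case let `u` be an irreducible factor of the polynomial
`Φ_{i l}(f)`, in the second case one of `f - 1`. The prime ideal theorem in the form of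
`∑ ρ_u(q) / q = ∞`, `ρ_u(q)` the number of zeros of `u` modulo `q`, and Turán's sieve show that for most
`t` one of finitely many primes `q` divides `u(t)`. We have to find for given `q` a prime `r` which
is not a square modulo `q` and divides `g(t)` exactly once and does not divide `f / g ^ e`. By Turán's sieve,
with congruences modulo `r ^ 2`, this is possible for almost all `t` if the sum of
`ρ_g(r) / r` over the primes `r` with `(r / q) = -1` diverges. This can be false, for instance for
`g = t ^ 2 - 5`, `q = 5`, or `g = t ^ 2 + t + 1`, `q = 3`. But it is false for at most `deg g` primes `q`: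
if it is false for `q_1, …, q_k`, consider `S = ∑_r ρ_g(r) (1 / r) ∑_j (r / q_j)` over the `r ≤ w`. On the
one hand `S ≥ k log log w - O(1)`, by the theorem of Mertens for the zeros of `g`; on the other hand by
the inequality of Cauchy and Schwarz `S ^ 2` is at most `∑_r ρ_g(r) ^ 2 / r ≤ deg g ∑_r ρ_g(r) / r`
times `∑_r (1 / r) (∑_j (r / q_j)) ^ 2`, which is `k log log w + O(1)` by the
theorem of Mertens for the quadratic characters modulo `q_i q_j`. A diagonal argument gives one set `E`.
-/

set_option autoImplicit false

namespace Pool.Agent.Results.MP_79499b_co.PolynomialOrders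

open Polynomial

/-- Some finite group `G` (not assumed abelian) of order `(n ^ m - 1) / (n - 1)` contains a
difference set `D` with the Singer parameters:
`k = (n ^ (m - 1) - 1) / (n - 1)`, `lambda = (n ^ (m - 2) - 1) / (n - 1)`. -/
def HasSingerDifferenceSet (n m : ℕ) : Prop :=
  ∃ (G : Type) (_ : Group G) (_ : Fintype G) (_ : DecidableEq G) (D : Finset G),
    Fintype.card G * (n - 1) = n ^ m - 1 ∧ D.card * (n - 1) = n ^ (m - 1) - 1 ∧
    ∀ g : G, g ≠ 1 →
      ((D ×ˢ D).filter (fun p : G × G => p.1 * p.2⁻¹ = g)).card * (n - 1) = n ^ (m - 2) - 1

/-- `E` is a difference set with the Singer parameters in the finite group `Q` (not assumed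
abelian): `v = (n ^ m - 1) / (n - 1)`, `k = (n ^ (m - 1) - 1) / (n - 1)`,
`lambda = (n ^ (m - 2) - 1) / (n - 1)`. -/
def IsSinger {Q : Type} [Group Q] [Fintype Q] [DecidableEq Q] (E : Finset Q) (n m : ℕ) : Prop :=
  Fintype.card Q * (n - 1) = n ^ m - 1 ∧ E.card * (n - 1) = n ^ (m - 1) - 1 ∧
    ∀ g : Q, g ≠ 1 →
      ((E ×ˢ E).filter (fun p : Q × Q => p.1 * p.2⁻¹ = g)).card * (n - 1) = n ^ (m - 2) - 1

/-- The difference set `E` lifts to the group `G`: there are a surjective homomorphism `π : G → Q`
with a kernel of order `n - 1` and a subset `D` of `G`, mapped by `π` bijectively onto the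
complement of `E`, such that each `g ∈ G` outside the kernel has exactly `n ^ (m - 2)`
representations `g = d₁ * d₂⁻¹` with `d₁, d₂ ∈ D` (so `D` is a relative difference set in `G`, with
forbidden subgroup the kernel). -/
def LiftsTo {Q : Type} [Group Q] [Fintype Q] [DecidableEq Q] (E : Finset Q) (n m : ℕ)
    (G : Type) [Group G] [Fintype G] [DecidableEq G] : Prop :=
  ∃ (π : G →* Q) (D : Finset G), Function.Surjective π ∧ Nat.card π.ker = n - 1 ∧
    D.image π = Eᶜ ∧ Set.InjOn π D ∧
    ∀ g : G, π g ≠ 1 → ((D ×ˢ D).filter (fun p : G × G => p.1 * p.2⁻¹ = g)).card = n ^ (m - 2)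

/-- There is a difference set with the Singer parameters of `(n, m)` which lifts to a finite group
`G` with a normal Sylow 2-subgroup, i.e. with a normal subgroup of 2-power order and odd index.
(Every nilpotent group and, if `n` is even, every group `G` of order `n ^ m - 1` has one.) -/
def Liftable (n m : ℕ) : Prop :=
  ∃ (Q : Type) (_ : Group Q) (_ : Fintype Q) (_ : DecidableEq Q) (E : Finset Q)
    (G : Type) (_ : Group G) (_ : Fintype G) (_ : DecidableEq G),
    (∃ K : Subgroup G, K.Normal ∧ (∃ s, Nat.card K = 2 ^ s) ∧ Odd K.index) ∧
    IsSinger E n m ∧ LiftsTo E n m G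

/-- `E` has natural density zero, in the form: for every `ε > 0`, for all large `N`, at most `ε N` elements
of `(N, 2 N]` are in `E`. -/
def DensityZero (E : Set ℕ) : Prop :=
  ∀ ε : ℝ, 0 < ε → ∃ N₀ : ℕ, ∀ N : ℕ, N₀ ≤ N →
    ({t : ℕ | t ∈ Finset.Ioc N (2 * N) ∧ t ∈ E}.ncard : ℝ) ≤ ε * (Finset.Ioc N (2 * N)).card

/-- Some irreducible polynomial `g` of positive degree divides `f` to an odd power, i.e. `f` is not
zero and not a constant times the square of a polynomial. -/
def Admissible (f : ℤ[X]) : Prop :=
  ∃ (g h : ℤ[X]) (e : ℕ), Irreducible g ∧ 0 < g.natDegree ∧ Odd e ∧ ¬ g ∣ h ∧ f = g ^ e * h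

theorem result :
    ∃ E : Set ℕ, DensityZero E ∧ ∀ f : ℤ[X], Admissible f →
      (∀ K i : ℕ, Odd i → {t : ℕ | t ∉ E ∧ ∃ n : ℕ, (n : ℤ) = f.eval (t : ℤ) ∧ 2 ≤ n ∧
        ∃ m : ℕ, Odd m ∧ 3 ≤ m ∧ m.minFac ≤ K ∧ HasSingerDifferenceSet (n ^ i) m}.Finite) ∧
      ∀ i : ℕ, Odd i → {t : ℕ | t ∉ E ∧ ∃ n : ℕ, (n : ℤ) = f.eval (t : ℤ) ∧ 2 ≤ n ∧
        ∃ m : ℕ, Even m ∧ 4 ≤ m ∧ Liftable (n ^ i) m}.Finite :=
  Pool.Agent.N92.PO.poly_main

end Pool.Agent.Results.MP_79499b_co.PolynomialOrders
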