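import Pool.Agent.N345.DW.Final

set_option autoImplicit false

/-!
# Difference sets with Singer parameters and few short lines: a robust Dembowski-Wagner theorem

Let `D` be a difference set with the Singer parameters `(n, m)`, `m ≥ 4`, in a finite group `G`. The
line joining `1` and `g ≠ 1` is the intersection of all right translates of `D` which contain both;
it has at most `n + 1` elements, and `g` is called short if it has fewer. If there is no short
element then the translates are the hyperplanes of a projective space and `n` is a prime power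
(Dembowski and Wagner). We show: if `n` is not a prime power then there are at least `n (2 n - 1)`
short elements, and at least `2 n ^ 2` of them if `m = 4`.

This rests on a local theorem on all symmetric designs with the parameters of `PG(m - 1, n)`: for
each point `p`, the number of points joined to `p` by a short line is zero or at least `n (2 n - 1)`,
and zero or at least `2 n ^ 2` if `m = 4`. The bound `2 n ^ 2` is sharp (not proved here): in
`PG(3, q)` exchange the intersections of the planes with a fixed plane `H` according to a
transposition of two lines of `H`, and take `p` off `H`.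
-/

namespace Pool.Agent.Results.MP_79499b_co.ShortLinesGap

open Finset

/-- The line joining the points `p` and `q` of a design: all points which lie in every block that
contains `p` and `q`. -/
def lineThrough {v : ℕ} (B : Fin v → Finset (Fin v)) (p q : Fin v) : Finset (Fin v) :=
  univ.filter fun z => ∀ i, p ∈ B i → q ∈ B i → z ∈ B i

/-- The points joined to `p` by a short line, that is a line which does not have `n + 1` points. -/
def shortAt {v : ℕ} (n : ℕ) (B : Fin v → Finset (Fin v)) (p : Fin v) : Finset (Fin v) :=
  univ.filter fun q => q ≠ p ∧ (lineThrough B p q).card ≠ n + 1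

/-- The line joining `1` and `g`: all elements `z` which lie in every right translate `D h⁻¹` of `D`
that contains `1` and `g`. -/
def line {G : Type} [Group G] [Fintype G] [DecidableEq G] (D : Finset G) (g : G) : Finset G :=
  univ.filter fun z => ∀ h ∈ D, g * h ∈ D → z * h ∈ D

/-- The short elements: `g ≠ 1` such that the line joining `1` and `g` does not have `n + 1`
elements. -/
def short {G : Type} [Group G] [Fintype G] [DecidableEq G] (n : ℕ) (D : Finset G) : Finset G :=
  univ.filter fun g => g ≠ 1 ∧ (line D g).card ≠ n + 1

theorem result (n m : ℕ) (hn : 2 ≤ n) (hm : 4 ≤ m) :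
    -- symmetric designs with the parameters of the hyperplanes of `PG(m - 1, n)`
    (∀ (v k lam : ℕ) (B : Fin v → Finset (Fin v)), v * (n - 1) = n ^ m - 1 →
      k * (n - 1) = n ^ (m - 1) - 1 → lam * (n - 1) = n ^ (m - 2) - 1 →
      (∀ i, (B i).card = k) →
      (∀ x y, x ≠ y → (univ.filter fun i => x ∈ B i ∧ y ∈ B i).card = lam) →
      (∀ p q, p ≠ q → (lineThrough B p q).card ≤ n + 1) ∧
      (∀ p, (shortAt n B p).Nonempty → n * (2 * n - 1) ≤ (shortAt n B p).card ∧
        (m = 4 → 2 * n ^ 2 ≤ (shortAt n B p).card)) ∧
      (¬ IsPrimePow n → ∃ p, (shortAt n B p).Nonempty)) ∧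
    -- difference sets
    (∀ (G : Type) [Group G] [Fintype G] [DecidableEq G] (D : Finset G),
      Fintype.card G * (n - 1) = n ^ m - 1 → D.card * (n - 1) = n ^ (m - 1) - 1 →
      (∀ g : G, g ≠ 1 →
        ((D ×ˢ D).filter (fun p : G × G => p.1 * p.2⁻¹ = g)).card * (n - 1) = n ^ (m - 2) - 1) →
      (∀ g, g ≠ 1 → (line D g).card ≤ n + 1) ∧
      ((short n D).Nonempty → n * (2 * n - 1) ≤ (short n D).card ∧
        (m = 4 → 2 * n ^ 2 ≤ (short n D).card)) ∧
      (¬ IsPrimePow n → n * (2 * n - 1) ≤ (short n D).card ∧
        (m = 4 → 2 * n ^ 2 ≤ (short n D).card))) := by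
  constructor
  · intro v k lam B hv hk hl hs hp
    obtain ⟨r, hr, hr4, e1, e2, e3⟩ := Pool.Agent.N345.DW.params hn hm hv hk hl
    have h := Pool.Agent.N345.DW.dsg_fin hn hr e1 e2 e3 hs hp
    have hLT : ∀ p q, lineThrough B p q = Pool.Agent.N345.DW.L B p q := by
      intro p q
      ext z
      simp [lineThrough, Pool.Agent.N345.DW.L]
    have hY : ∀ p, shortAt n B p = Pool.Agent.N345.DW.Y n B p := by
      intro p
      ext q
      simp [shortAt, Pool.Agent.N345.DW.Y, hLT]
    refine ⟨fun p q hpq => by rw [hLT]; exact h.card_le hpq, ?_, ?_⟩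
    · intro p hpne
      rw [hY] at hpne ⊢
      refine ⟨h.gap_all hr p hpne, fun h4 => ?_⟩
      have hr1 := hr4 h4
      subst hr1
      exact h.gap_four p hpne
    · intro hnp
      by_contra hcon
      push Not at hcon
      apply hnp
      refine Pool.Agent.N345.DW.PG.primePow' (B := B) (r := r) ⟨h, ?_, hr⟩
      intro x y hxy
      have := hcon x
      by_contra hne
      have h1 : y ∈ shortAt n B x := by
        rw [shortAt, mem_filter]
        exact ⟨mem_univ _, Ne.symm hxy, by rw [hLT]; exact hne⟩
      rw [this] at h1
      exact absurd h1 (Finset.notMem_empty _)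
  · intro G _ _ _ D hG hD hg
    -- the number of representations
    obtain ⟨g0, hg0⟩ : ∃ g : G, g ≠ 1 := by
      have hc : 1 < Fintype.card G := by
        by_contra hle
        push Not at hle
        have h1 : Fintype.card G * (n - 1) ≤ n - 1 := by
          calc Fintype.card G * (n - 1) ≤ 1 * (n - 1) := Nat.mul_le_mul_right _ hle
            _ = n - 1 := one_mul _
        rw [hG] at h1
        have h2 : n ^ 2 ≤ n ^ m := Nat.pow_le_pow_right (by omega) (by omega)
        have h3 : n < n ^ 2 := by nlinarith
        omega
      have : Nontrivial G := Fintype.one_lt_card_iff_nontrivial.1 hc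
      exact exists_ne 1
    obtain ⟨r, hr, hr4, e1, e2, e3⟩ := Pool.Agent.N345.DW.params hn hm hG hD (hg g0 hg0)
    have hlam : ∀ g : G, g ≠ 1 →
        ((D ×ˢ D).filter (fun p : G × G => p.1 * p.2⁻¹ = g)).card = r * n + 1 := by
      intro g hg1
      rw [← e1]
      apply Nat.eq_of_mul_eq_mul_right (show 0 < n - 1 by omega)
      rw [hg g hg1, hg g0 hg0]
    have h := Pool.Agent.N345.DW.dsg_group hn hr e3 e2 hlam
    have hL : ∀ g, line D g = Pool.Agent.N345.DW.L (Pool.Agent.N345.DW.tr D) 1 g := by
      intro g
      ext z
      rw [Pool.Agent.N345.DW.mem_L, line, mem_filter]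
      simp only [Pool.Agent.N345.DW.mem_tr, one_mul, mem_univ, true_and]
    have hS : short n D = Pool.Agent.N345.DW.Y n (Pool.Agent.N345.DW.tr D) 1 := by
      ext g
      rw [Pool.Agent.N345.DW.mem_Y, short, mem_filter, hL]
      simp
    have hgap : (short n D).Nonempty → n * (2 * n - 1) ≤ (short n D).card ∧
        (m = 4 → 2 * n ^ 2 ≤ (short n D).card) := by
      intro hne
      rw [hS] at hne ⊢
      refine ⟨h.gap_all hr 1 hne, fun h4 => ?_⟩
      have hr1 := hr4 h4
      subst hr1
      exact h.gap_four 1 hne
    refine ⟨fun g hg1 => ?_, hgap, fun hnp => hgap ?_⟩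
    · rw [hL]; exact h.card_le (Ne.symm hg1)
    · by_contra hcon
      rw [Finset.not_nonempty_iff_eq_empty] at hcon
      apply hnp
      refine Pool.Agent.N345.DW.PG.primePow' (B := Pool.Agent.N345.DW.tr D) (r := r) ⟨h, ?_, hr⟩
      intro x y hxy
      rw [Pool.Agent.N345.DW.L_one]
      by_contra hne
      have h1 : y * x⁻¹ ∈ short n D := by
        rw [short, mem_filter, hL]
        exact ⟨mem_univ _, fun e => hxy (mul_inv_eq_one.1 e).symm, hne⟩
      rw [hcon] at h1
      exact absurd h1 (Finset.notMem_empty _)

end Pool.Agent.Results.MP_79499b_co.ShortLinesGap
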