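import Pool.Agent.N92.SD.Lift

/-!
# Liftable difference sets with Singer parameters, even dimension: orders from thin sequences

`Liftable n m`: there is a difference set with the Singer parameters of `(n, m)` in a finite group (not
assumed abelian) which lifts, as the classical Singer difference sets do, to a relative difference set in a
finite group with a normal Sylow 2-subgroup (for example in a nilpotent group). Conjecturally `n` is then a
prime power.

The starting results (`LiftableSingerSets`, `LiftablePowerOrders`, `LiftablePrimeFactors`) count the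
orders: at most `C X (log X) ^ (ε - 1)` integers `n ≤ X` are such that `Liftable n m` for some even `m ≥ 4`.
Such a statement says nothing about the members of a sequence which has only few members up to `X`. Here we
consider arbitrary sequences `n = a(t)`, `t = 1, 2, 3, …`, with the only condition that they are uniformly
distributed modulo all integers `q`; they may grow as fast as we please. More generally `t` can be
restricted to finite sets `S N ⊆ (N, 2N]`, for instance to the primes in `(N, 2N]`.

**Theorem.** Let the sequence `a(t)` of integers be uniformly distributed modulo all integers along `S N`,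
and along `S' N`. There is ONE set `E` of natural numbers, of density zero relative to `S N` and to
`S' N`, such that for ALL odd `i`, for all but finitely many `t ∉ E`, no difference set with the Singer
parameters of `(a(t) ^ i, m)` is liftable, whatever the even number `m ≥ 4` is.

Uniformly distributed modulo all integers, along all integers and along the primes, are for example the
integral parts of generalised polynomials `P(t) = ∑ α_i t ^ i`, finite sums of real powers with real
coefficients, with positive non-integral leading exponent and positive leading coefficient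
(second part of the theorem), for instance `⌊t ^ √2⌋` or `⌊π t ^ 100.5⌋`.

Proof. If an odd prime `q` divides `n - 1` and a prime `r` which is not a square modulo `q` divides `n` to an
odd power, then no difference set with the Singer parameters of `(n, m)`, `m` even, is liftable, by the
theorem on relative difference sets of the starting library (`Pool.Agent.R116.AF.exO_lift`). By Turán's sieve
for sequences which are uniformly distributed modulo all integers, most `a(t)` are congruent to `1` modulo
one of finitely many odd primes `q`, and for given `q` almost all `a(t)` are divisible exactly once by a prime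
`r` in a fixed class of non-squares modulo `q` (Dirichlet's theorem); a diagonal argument gives one set `E`.
-/

set_option autoImplicit false

namespace Pool.Agent.Results.MP_79499b_co.ThinOrdersLiftable

/-- `E` is a difference set with the Singer parameters in the finite group `Q` (not assumed
abelian): `v = (n ^ m - 1) / (n - 1)`, `k = (n ^ (m - 1) - 1) / (n - 1)`,
`lambda = (n ^ (m - 2) - 1) / (n - 1)`. -/
def IsSinger {Q : Type} [Group Q] [Fintype Q] [DecidableEq Q] (E : Finset Q) (n m : ℕ) : Prop :=
  Fintype.card Q * (n - 1) = n ^ m - 1 ∧ E.card * (n - 1) = n ^ (m - 1) - 1 ∧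
    ∀ g : Q, g ≠ 1 →
      ((E ×ˢ E).filter (fun p : Q × Q => p.1 * p.2⁻¹ = g)).card * (n - 1) = n ^ (m - 2) - 1

/-- The difference set `E` lifts to the group `G`: there are a surjective homomorphism `π : G → Q`
with a kernel of order `n - 1` and a subset `D` of `G`, mapped by `π` bijectively onto the
complement of `E`, such that each `g ∈ G` outside the kernel has exactly `n ^ (m - 2)`
representations `g = d₁ * d₂⁻¹` with `d₁, d₂ ∈ D` (so `D` is a relative difference set in `G`, with
forbidden subgroup the kernel). -/
def LiftsTo {Q : Type} [Group Q] [Fintype Q] [DecidableEq Q] (E : Finset Q) (n m : ℕ)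
    (G : Type) [Group G] [Fintype G] [DecidableEq G] : Prop :=
  ∃ (π : G →* Q) (D : Finset G), Function.Surjective π ∧ Nat.card π.ker = n - 1 ∧
    D.image π = Eᶜ ∧ Set.InjOn π D ∧
    ∀ g : G, π g ≠ 1 → ((D ×ˢ D).filter (fun p : G × G => p.1 * p.2⁻¹ = g)).card = n ^ (m - 2)

/-- There is a difference set with the Singer parameters of `(n, m)` which lifts to a finite group
`G` with a normal Sylow 2-subgroup, i.e. with a normal subgroup of 2-power order and odd index.
(Every nilpotent group and, if `n` is even, every group `G` of order `n ^ m - 1` has one.) -/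
def Liftable (n m : ℕ) : Prop :=
  ∃ (Q : Type) (_ : Group Q) (_ : Fintype Q) (_ : DecidableEq Q) (E : Finset Q)
    (G : Type) (_ : Group G) (_ : Fintype G) (_ : DecidableEq G),
    (∃ K : Subgroup G, K.Normal ∧ (∃ s, Nat.card K = 2 ^ s) ∧ Odd K.index) ∧
    IsSinger E n m ∧ LiftsTo E n m G

/-- `E` has density zero relative to the sets `S N`. -/
def NullIn (S : ℕ → Finset ℕ) (E : Set ℕ) : Prop :=
  ∀ ε : ℝ, 0 < ε → ∃ N₀ : ℕ, ∀ N : ℕ, N₀ ≤ N →
    ({t : ℕ | t ∈ S N ∧ t ∈ E}.ncard : ℝ) ≤ ε * (S N).card

/-- The sequence `a` is uniformly distributed modulo all integers `q ≥ 1` along the sets `S N`. -/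
def Equidistributed (S : ℕ → Finset ℕ) (a : ℕ → ℤ) : Prop :=
  ∀ q : ℕ, 1 ≤ q → ∀ ρ : ℤ, Filter.Tendsto
    (fun N => ({t : ℕ | t ∈ S N ∧ (q : ℤ) ∣ a t - ρ}.ncard : ℝ) / (S N).card)
    Filter.atTop (nhds (1 / (q : ℝ)))

/-- `∑ i ∈ I, α i * t ^ i` is a generalised polynomial with leading exponent `θ`, which is positive
and not an integer, and with positive leading coefficient. -/
def Generalised (I : Finset ℝ) (α : ℝ → ℝ) (θ : ℝ) : Prop :=
  θ ∈ I ∧ (∀ i ∈ I, i ≤ θ) ∧ 0 < θ ∧ (∀ m : ℕ, θ ≠ m) ∧ 0 < α θ

/-- The integral part of the value at `t` of the generalised polynomial `∑ i ∈ I, α i * t ^ i`. -/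
noncomputable def value (I : Finset ℝ) (α : ℝ → ℝ) (t : ℕ) : ℤ := ⌊∑ i ∈ I, α i * (t : ℝ) ^ i⌋

theorem result :
    (∀ (a : ℕ → ℤ) (S S' : ℕ → Finset ℕ), (∀ N, S N ⊆ Finset.Ioc N (2 * N)) →
      (∀ N, S' N ⊆ Finset.Ioc N (2 * N)) → Equidistributed S a → Equidistributed S' a →
      ∃ E : Set ℕ, NullIn S E ∧ NullIn S' E ∧ ∀ i : ℕ, Odd i →
        {t : ℕ | t ∉ E ∧ ∃ n : ℕ, (n : ℤ) = a t ∧ 2 ≤ n ∧
          ∃ m : ℕ, Even m ∧ 4 ≤ m ∧ Liftable (n ^ i) m}.Finite) ∧
    (∀ (I : Finset ℝ) (α : ℝ → ℝ) (θ : ℝ), Generalised I α θ →
      Equidistributed (fun N => Finset.Ioc N (2 * N)) (value I α) ∧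
      Equidistributed (fun N => (Finset.Ioc N (2 * N)).filter Nat.Prime) (value I α)) :=
  ⟨fun _ _ _ hS hS' hu hu' => Pool.Agent.N92.SD.lift_main hS hS' hu hu',
    fun _ _ _ h => Pool.Agent.N92.TC.eqd_fl h⟩

end Pool.Agent.Results.MP_79499b_co.ThinOrdersLiftable
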