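import Pool.Agent.N92.SD.Odd

/-!
# Difference sets with Singer parameters of odd dimension: orders from thin sequences

`HasSingerDifferenceSet n m`: some finite group (not assumed abelian) contains a difference set with the
Singer parameters of `(n, m)`. Conjecturally `n` is then a prime power.

The starting results count the orders `n ≤ X`: for every `K` and `ε` there are at most
`C X (log X) ^ (ε - 1)` orders `n ≤ X` of difference sets with the Singer parameters of `(n ^ i, m)`,
`m ≥ 3` odd with least prime factor at most `K`. Such a statement says nothing about the members of a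
sequence which has only few members up to `X`. Here we consider arbitrary sequences `n = a(t)`,
`t = 1, 2, 3, …`, with the only condition that they are uniformly distributed modulo all integers `q`;
they may grow as fast as we please. More generally `t` can be restricted to finite sets
`S N ⊆ (N, 2N]`, for instance to the primes in `(N, 2N]`.

**Theorem.** Let the sequence `a(t)` of integers be uniformly distributed modulo all integers along `S N`,
and along `S' N`. There is ONE set `E` of natural numbers, of density zero relative to `S N` and to
`S' N`, such that for ALL `K` and ALL odd `i`, for all but finitely many `t ∉ E`, no finite group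
contains a difference set with the Singer parameters of `(a(t) ^ i, m)`, whatever the odd number `m ≥ 3`
with least prime factor at most `K` is.

So for a fixed prime `l`, for instance `l = 3` (which includes planar difference sets), the prime power
conjecture for difference sets with Singer parameters holds for the orders `a(t) ^ i` and all odd `m`
divisible by `l`, for almost all `t` and, outside of `E`, with finitely many possible exceptions.

Uniformly distributed modulo all integers, along all integers and along the primes, are for example the
integral parts of generalised polynomials `P(t) = ∑ α_i t ^ i`, finite sums of real powers with real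
coefficients, with positive non-integral leading exponent and positive leading coefficient
(second part of the theorem), for instance `⌊t ^ √2⌋` or `⌊π t ^ 100.5⌋`.

Proof. Let `l` be a prime factor of `m`. If `q` is a prime modulo which `n` has the order `i l`, and if a
prime `r` which is not a square modulo `q` divides `n` exactly once, then there is no difference set with the
Singer parameters of `(n ^ i, m)`, by the theorem on multipliers modulo `q` of the starting library
(`Lander.no_difference_set`). By Turán's sieve for sequences which are uniformly distributed modulo all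
integers, most `a(t)` have a fixed residue of order `i l` modulo one of finitely many primes
`q ≡ 1 (mod i l)`, and for given `q` almost all `a(t)` are divisible exactly once by a prime `r` in a fixed
class of non-squares modulo `q` (Dirichlet's theorem); a diagonal argument gives one set `E`.
-/

set_option autoImplicit false

namespace Pool.Agent.Results.MP_79499b_co.ThinOrdersOddDimension

/-- Some finite group `G` (not assumed abelian) of order `(n ^ m - 1) / (n - 1)` contains a
difference set `D` with the Singer parameters:
`k = (n ^ (m - 1) - 1) / (n - 1)`, `lambda = (n ^ (m - 2) - 1) / (n - 1)`. -/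
def HasSingerDifferenceSet (n m : ℕ) : Prop :=
  ∃ (G : Type) (_ : Group G) (_ : Fintype G) (_ : DecidableEq G) (D : Finset G),
    Fintype.card G * (n - 1) = n ^ m - 1 ∧ D.card * (n - 1) = n ^ (m - 1) - 1 ∧
    ∀ g : G, g ≠ 1 →
      ((D ×ˢ D).filter (fun p : G × G => p.1 * p.2⁻¹ = g)).card * (n - 1) = n ^ (m - 2) - 1

/-- `E` has density zero relative to the sets `S N`. -/
def NullIn (S : ℕ → Finset ℕ) (E : Set ℕ) : Prop :=
  ∀ ε : ℝ, 0 < ε → ∃ N₀ : ℕ, ∀ N : ℕ, N₀ ≤ N →
    ({t : ℕ | t ∈ S N ∧ t ∈ E}.ncard : ℝ) ≤ ε * (S N).card

/-- The sequence `a` is uniformly distributed modulo all integers `q ≥ 1` along the sets `S N`. -/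
def Equidistributed (S : ℕ → Finset ℕ) (a : ℕ → ℤ) : Prop :=
  ∀ q : ℕ, 1 ≤ q → ∀ ρ : ℤ, Filter.Tendsto
    (fun N => ({t : ℕ | t ∈ S N ∧ (q : ℤ) ∣ a t - ρ}.ncard : ℝ) / (S N).card)
    Filter.atTop (nhds (1 / (q : ℝ)))

/-- `∑ i ∈ I, α i * t ^ i` is a generalised polynomial with leading exponent `θ`, which is positive
and not an integer, and with positive leading coefficient. -/
def Generalised (I : Finset ℝ) (α : ℝ → ℝ) (θ : ℝ) : Prop :=
  θ ∈ I ∧ (∀ i ∈ I, i ≤ θ) ∧ 0 < θ ∧ (∀ m : ℕ, θ ≠ m) ∧ 0 < α θ

/-- The integral part of the value at `t` of the generalised polynomial `∑ i ∈ I, α i * t ^ i`. -/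
noncomputable def value (I : Finset ℝ) (α : ℝ → ℝ) (t : ℕ) : ℤ := ⌊∑ i ∈ I, α i * (t : ℝ) ^ i⌋

theorem result :
    (∀ (a : ℕ → ℤ) (S S' : ℕ → Finset ℕ), (∀ N, S N ⊆ Finset.Ioc N (2 * N)) →
      (∀ N, S' N ⊆ Finset.Ioc N (2 * N)) → Equidistributed S a → Equidistributed S' a →
      ∃ E : Set ℕ, NullIn S E ∧ NullIn S' E ∧ ∀ K i : ℕ, Odd i →
        {t : ℕ | t ∉ E ∧ ∃ n : ℕ, (n : ℤ) = a t ∧ 2 ≤ n ∧
          ∃ m : ℕ, Odd m ∧ 3 ≤ m ∧ m.minFac ≤ K ∧ HasSingerDifferenceSet (n ^ i) m}.Finite) ∧
    (∀ (I : Finset ℝ) (α : ℝ → ℝ) (θ : ℝ), Generalised I α θ →
      Equidistributed (fun N => Finset.Ioc N (2 * N)) (value I α) ∧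
      Equidistributed (fun N => (Finset.Ioc N (2 * N)).filter Nat.Prime) (value I α)) :=
  ⟨fun _ _ _ hS hS' hu hu' => Pool.Agent.N92.SD.odd_main hS hS' hu hu',
    fun _ _ _ h => Pool.Agent.N92.TC.eqd_fl h⟩

end Pool.Agent.Results.MP_79499b_co.ThinOrdersOddDimension
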